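import Pool.Agent.TH381.RM.Defs
import Pool.Agent.W614.Dg.Queue

/-!
# Project RM, part PIPE: correctness and speed of the pipeline cellular automaton
-/

set_option autoImplicit false

namespace Pool.Agent.TH805.RM

open Pool.Agent.H584R2.Dg Pool.Agent.W614.Dg Pool.Agent.TH381.RM

section rules

variable {S : Type} {τ : Dgsm S}

lemma rule_none (x z : Cell τ) : rule τ x none z = none := rfl

lemma rule_nil_nil {x : Cell τ} (h : buf x = []) (q : τ.Q) (z : Cell τ) :
    rule τ x (some (q, [])) z = some (q, []) := by
  simp only [rule, h]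

lemma rule_nil_cons {x : Cell τ} {s : S} {w : List S} (h : buf x = s :: w) (q : τ.Q)
    (z : Cell τ) : rule τ x (some (q, [])) z = some (τ.next q s, τ.out q s) := by
  simp only [rule, h]

lemma rule_cons_nil {z : Cell τ} (h : buf z = []) (q : τ.Q) (x : Cell τ) (s : S) (o : List S) :
    rule τ x (some (q, s :: o)) z = some (q, o) := by
  simp only [rule, h]

lemma rule_cons_cons {z : Cell τ} (h : buf z ≠ []) (q : τ.Q) (x : Cell τ) (s : S) (o : List S) :
    rule τ x (some (q, s :: o)) z = some (q, s :: o) := by
  cases hz : buf z with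
  | nil => exact absurd hz h
  | cons a w => simp only [rule, hz]

end rules

/-- the letter after a prefix -/
lemma take_step {S : Type} {R o : List S} {e : ℕ} {s : S} (he : e ≤ R.length)
    (h : R.take e ++ s :: o <+: R) : R.take (e + 1) = R.take e ++ [s] ∧ e + 1 ≤ R.length := by
  obtain ⟨r, hr⟩ := h
  have hl : (R.take e).length = e := by simp [he]
  generalize R.take e = u at hr hl
  subst hr
  subst hl
  constructor
  · simp [List.take_append]
  · simp

section pipe

variable {S : Type} (τ : Dgsm S) (R0 : List S) (l : ℕ)

/-- the rows -/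
def row (k : ℕ) : List S := τ.map^[k] R0

/-- the cell of the stage `k` -/
def st (k t : ℕ) : Cell τ := cf τ R0 l t ((k : ℤ) - l)

open Classical in
/-- the number of letters lost by the stage `k` before the time `t` -/
noncomputable def em (k : ℕ) : ℕ → ℕ
  | 0 => 0
  | t + 1 => em k t + if buf (st τ R0 l k t) ≠ [] ∧ buf (st τ R0 l (k + 1) t) = [] then 1 else 0

/-- the word produced by the stage `k` before the time `t` -/
noncomputable def prd : ℕ → ℕ → List S
  | 0, _ => R0
  | k + 1, t => τ.run τ.init ((row τ R0 k).take (em τ R0 l k t))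

/-- the state of the stage `k` at the time `t` -/
noncomputable def sta : ℕ → ℕ → τ.Q
  | 0, _ => τ.init
  | k + 1, t => stAfter τ τ.init ((row τ R0 k).take (em τ R0 l k t))

variable {τ R0 l}

lemma em_yes {k t : ℕ} (h1 : buf (st τ R0 l k t) ≠ []) (h2 : buf (st τ R0 l (k + 1) t) = []) :
    em τ R0 l k (t + 1) = em τ R0 l k t + 1 := by
  rw [em, if_pos ⟨h1, h2⟩]

lemma em_no {k t : ℕ} (h : ¬ (buf (st τ R0 l k t) ≠ [] ∧ buf (st τ R0 l (k + 1) t) = [])) :
    em τ R0 l k (t + 1) = em τ R0 l k t := by
  rw [em, if_neg h, add_zero]

lemma row_succ (k : ℕ) : row τ R0 (k + 1) = τ.run τ.init (row τ R0 k) := by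
  unfold row
  rw [Function.iterate_succ_apply']
  rfl

lemma run_take_prefix (k m : ℕ) : τ.run τ.init ((row τ R0 k).take m) <+: row τ R0 (k + 1) := by
  rw [row_succ]
  refine ⟨τ.run (stAfter τ τ.init ((row τ R0 k).take m)) ((row τ R0 k).drop m), ?_⟩
  rw [← run_append, List.take_append_drop]

lemma prd_prefix (k t : ℕ) : prd τ R0 l k t <+: row τ R0 k := by
  cases k with
  | zero => exact List.prefix_refl _
  | succ k => exact run_take_prefix k _

/-! ### the cells at the border -/

lemma left_cells (t : ℕ) (i : ℤ) (hi : i + l < 0) : cf τ R0 l t i = some (τ.init, []) := by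
  induction t generalizing i with
  | zero =>
    rw [cf, if_neg (by omega), if_neg (by omega)]
  | succ t ih =>
    rw [cf, ih i hi, ih (i - 1) (by omega)]
    exact rule_nil_nil rfl _ _

lemma sink (t : ℕ) : cf τ R0 l t 1 = none := by
  induction t with
  | zero => rw [cf, if_neg (by omega), if_pos rfl]
  | succ t ih => rw [cf, ih]; rfl

lemma st_sink (t : ℕ) : st τ R0 l (l + 1) t = none := by
  unfold st
  have e : ((l + 1 : ℕ) : ℤ) - l = 1 := by push_cast; ring
  rw [e]
  exact sink t

lemma st_zero_step (t : ℕ) : st τ R0 l 0 (t + 1) =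
    rule τ (some (τ.init, [])) (st τ R0 l 0 t) (st τ R0 l 1 t) := by
  unfold st
  rw [cf, left_cells t _ (by push_cast; omega)]
  congr 2
  push_cast
  ring

lemma st_step (k t : ℕ) : st τ R0 l (k + 1) (t + 1) =
    rule τ (st τ R0 l k t) (st τ R0 l (k + 1) t) (st τ R0 l (k + 2) t) := by
  unfold st
  rw [cf]
  congr 2
  · push_cast; ring
  · push_cast; ring

/-! ### the invariant -/

/-- the invariant -/
def Inv (τ : Dgsm S) (R0 : List S) (l k t : ℕ) : Prop :=
  ∃ o, st τ R0 l k t = some (sta τ R0 l k t, o) ∧
    (row τ R0 k).take (em τ R0 l k t) ++ o = prd τ R0 l k t ∧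
    em τ R0 l k t ≤ (row τ R0 k).length

lemma inv_zero {k : ℕ} (hk : k ≤ l) : Inv τ R0 l k 0 := by
  cases k with
  | zero =>
    refine ⟨R0, ?_, ?_, ?_⟩
    · unfold st sta
      rw [cf, if_pos (by push_cast; ring)]
    · simp [em, prd]
    · simp [em]
  | succ k =>
    refine ⟨[], ?_, ?_, ?_⟩
    · unfold st
      rw [cf, if_neg (by push_cast; omega), if_neg (by push_cast; omega)]
      simp [sta, em, stAfter]
    · simp [em, prd, Dgsm.run]
    · simp [em]

/-- a stage whose buffer is not consumed and which consumes nothing -/
lemma inv_step_cons {k t : ℕ} {s : S} {o : List S}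
    (h1 : st τ R0 l k t = some (sta τ R0 l k t, s :: o))
    (h2 : (row τ R0 k).take (em τ R0 l k t) ++ s :: o = prd τ R0 l k t)
    (h3 : em τ R0 l k t ≤ (row τ R0 k).length)
    (hs : st τ R0 l k (t + 1) = rule τ (st τ R0 l (k - 1) t) (st τ R0 l k t) (st τ R0 l (k + 1) t) ∨
      st τ R0 l k (t + 1) = rule τ (some (τ.init, [])) (st τ R0 l k t) (st τ R0 l (k + 1) t))
    (hsta : sta τ R0 l k (t + 1) = sta τ R0 l k t) (hprd : prd τ R0 l k (t + 1) = prd τ R0 l k t) :
    Inv τ R0 l k (t + 1) := by
  have hb : buf (st τ R0 l k t) = s :: o := by rw [h1]; rfl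
  by_cases hz : buf (st τ R0 l (k + 1) t) = []
  · have hem := em_yes (k := k) (t := t) (by rw [hb]; simp) hz
    obtain ⟨g1, g2⟩ := take_step h3 (h2 ▸ prd_prefix k t)
    refine ⟨o, ?_, ?_, ?_⟩
    · rw [hsta]
      rcases hs with hs | hs
      · rw [hs, h1]; exact rule_cons_nil hz _ _ _ _
      · rw [hs, h1]; exact rule_cons_nil hz _ _ _ _
    · rw [hprd, hem, g1, ← h2]
      simp
    · rw [hem]; exact g2
  · have hem : em τ R0 l k (t + 1) = em τ R0 l k t := em_no (fun h => hz h.2)
    refine ⟨s :: o, ?_, ?_, ?_⟩
    · rw [hsta]
      rcases hs with hs | hs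
      · rw [hs, h1]; exact rule_cons_cons hz _ _ _ _
      · rw [hs, h1]; exact rule_cons_cons hz _ _ _ _
    · rw [hprd, hem, h2]
    · rw [hem]; exact h3

lemma inv_all (t : ℕ) : ∀ k, k ≤ l → Inv τ R0 l k t := by
  induction t with
  | zero => exact fun k hk => inv_zero hk
  | succ t ih =>
    intro k hk
    obtain ⟨o, h1, h2, h3⟩ := ih k hk
    cases k with
    | zero =>
      cases o with
      | nil =>
        have hb : buf (st τ R0 l 0 t) = [] := by rw [h1]; rfl
        have hem : em τ R0 l 0 (t + 1) = em τ R0 l 0 t := em_no (fun h => h.1 hb)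
        refine ⟨[], ?_, ?_, ?_⟩
        · rw [st_zero_step, h1]
          exact rule_nil_nil rfl _ _
        · rw [hem, h2]; rfl
        · rw [hem]; exact h3
      | cons s o =>
        exact inv_step_cons h1 h2 h3 (Or.inr (st_zero_step t)) rfl rfl
    | succ k =>
      obtain ⟨o', g1, g2, g3⟩ := ih k (by omega)
      cases o with
      | nil =>
        have hb : buf (st τ R0 l (k + 1) t) = [] := by rw [h1]; rfl
        have hem : em τ R0 l (k + 1) (t + 1) = em τ R0 l (k + 1) t := em_no (fun h => h.1 hb)
        cases o' with
        | nil =>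
          have hb' : buf (st τ R0 l k t) = [] := by rw [g1]; rfl
          have hem' : em τ R0 l k (t + 1) = em τ R0 l k t := em_no (fun h => h.1 hb')
          refine ⟨[], ?_, ?_, ?_⟩
          · rw [st_step, h1, rule_nil_nil hb']
            simp only [sta, hem']
          · rw [hem, h2]
            simp only [prd, hem']
          · rw [hem]; exact h3
        | cons s w =>
          have hb' : buf (st τ R0 l k t) = s :: w := by rw [g1]; rfl
          have hem' := em_yes (k := k) (t := t) (by rw [hb']; simp) hb
          obtain ⟨e1, -⟩ := take_step g3 (g2 ▸ prd_prefix k t)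
          refine ⟨τ.out (sta τ R0 l (k + 1) t) s, ?_, ?_, ?_⟩
          · rw [st_step, h1, rule_nil_cons hb']
            simp only [sta, hem', e1, stAfter_append]
            simp [stAfter]
          · rw [List.append_nil] at h2
            rw [hem, h2]
            simp only [prd, sta, hem', e1, run_append]
            simp [Dgsm.run]
          · rw [hem]; exact h3
      | cons s o =>
        have hem' : em τ R0 l k (t + 1) = em τ R0 l k t := em_no (fun h => by
          have hb : buf (st τ R0 l (k + 1) t) = s :: o := by rw [h1]; rfl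
          rw [hb] at h
          simp at h)
        refine inv_step_cons h1 h2 h3 (Or.inl (st_step k t)) ?_ ?_
        · simp only [sta, hem']
        · simp only [prd, hem']

/-! ### correctness -/

lemma heads (T : ℕ) : (List.range T).filterMap (fun t => (buf (cf τ R0 l t 0)).head?) =
    (row τ R0 l).take (em τ R0 l l T) := by
  have e0 : ∀ t, cf τ R0 l t 0 = st τ R0 l l t := fun t => by unfold st; rw [sub_self]
  induction T with
  | zero => simp [em]
  | succ T ih =>
    rw [List.range_succ, List.filterMap_append, ih]
    obtain ⟨o, h1, h2, h3⟩ := inv_all (τ := τ) (R0 := R0) (l := l) T l le_rfl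
    cases o with
    | nil =>
      have hb : buf (st τ R0 l l T) = [] := by rw [h1]; rfl
      rw [em_no (fun h => h.1 hb)]
      simp [e0, hb]
    | cons s o =>
      have hb : buf (st τ R0 l l T) = s :: o := by rw [h1]; rfl
      rw [em_yes (by rw [hb]; simp) (by rw [st_sink]; rfl),
        (take_step h3 (h2 ▸ prd_prefix l T)).1]
      simp [e0, hb]

/-! ### speed -/

section speed

variable (hne : τ.NonErasing)

include hne in
lemma map_len_lt (j : ℕ) (u v : List S) (hv : v ≠ []) :
    (τ.map^[j] u).length < (τ.map^[j] (u ++ v)).length := by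
  induction j generalizing u v with
  | zero =>
    have := List.length_pos_of_ne_nil hv
    simp only [Function.iterate_zero, id_eq, List.length_append]
    omega
  | succ j ih =>
    rw [Function.iterate_succ_apply, Function.iterate_succ_apply]
    have e : τ.map (u ++ v) = τ.map u ++ τ.run (stAfter τ τ.init u) v := run_append τ τ.init u v
    rw [e]
    refine ih _ _ ?_
    have h1 := run_length hne (stAfter τ τ.init u) v
    have h2 := List.length_pos_of_ne_nil hv
    intro h
    rw [h, List.length_nil] at h1
    omega

/-- the length of the image in the row `l` of the first `m` letters of the row `k` -/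
def dd (τ : Dgsm S) (R0 : List S) (l k m : ℕ) : ℕ :=
  (τ.map^[l - k] ((row τ R0 k).take m)).length

include hne in
lemma dd_lt {k m m' : ℕ} (h : m < m') (h' : m' ≤ (row τ R0 k).length) :
    dd τ R0 l k m < dd τ R0 l k m' := by
  unfold dd
  have e : (row τ R0 k).take m' = (row τ R0 k).take m ++ ((row τ R0 k).drop m).take (m' - m) := by
    have : m' = m + (m' - m) := by omega
    conv_lhs => rw [this, List.take_add]
  rw [e]
  refine map_len_lt hne _ _ _ ?_
  intro h0
  have h1 := congrArg List.length h0
  simp only [List.length_take, List.length_drop, List.length_nil] at h1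
  omega

lemma dd_succ {k m : ℕ} (hk : k < l) :
    dd τ R0 l k m = dd τ R0 l (k + 1) (τ.run τ.init ((row τ R0 k).take m)).length := by
  unfold dd
  have e : l - k = (l - (k + 1)) + 1 := by omega
  rw [e, Function.iterate_succ_apply, ← List.prefix_iff_eq_take.1 (run_take_prefix k m)]
  rfl

lemma dd_last {m : ℕ} (h : m ≤ (row τ R0 l).length) : dd τ R0 l l m = m := by
  unfold dd
  rw [Nat.sub_self, Function.iterate_zero, id_eq, List.length_take]
  exact min_eq_left h

include hne in
lemma speed (t : ℕ) : ∀ k, k ≤ l → em τ R0 l k t < (row τ R0 k).length →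
    t ≤ 2 * dd τ R0 l k (em τ R0 l k t) + k + 1 := by
  induction t with
  | zero => intro k _ _; omega
  | succ t ih =>
    intro k hk he
    by_cases hev : buf (st τ R0 l k t) ≠ [] ∧ buf (st τ R0 l (k + 1) t) = []
    · have hem := em_yes hev.1 hev.2
      rw [hem] at he ⊢
      have h1 := ih k hk (by omega)
      have h2 := dd_lt (τ := τ) (R0 := R0) (l := l) hne (k := k)
        (m := em τ R0 l k t) (m' := em τ R0 l k t + 1) (by omega) he.le
      omega
    · have hem := em_no hev
      rw [hem] at he ⊢
      obtain ⟨o, h1, h2, h3⟩ := inv_all (τ := τ) (R0 := R0) (l := l) t k hk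
      by_cases hb : buf (st τ R0 l k t) = []
      · -- nothing to lose
        have ho : o = [] := by
          rw [h1] at hb
          exact hb
        rw [ho, List.append_nil] at h2
        have hlen := congrArg List.length h2
        rw [List.length_take, min_eq_left h3] at hlen
        cases k with
        | zero =>
          exfalso
          have e : (prd τ R0 l 0 t).length = (row τ R0 0).length := rfl
          omega
        | succ k =>
          have e : (prd τ R0 l (k + 1) t) = τ.run τ.init ((row τ R0 k).take (em τ R0 l k t)) := rfl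
          rw [e] at hlen
          have hi : em τ R0 l k t < (row τ R0 k).length := by
            by_contra hcon
            rw [List.take_of_length_le (by omega), ← row_succ] at hlen
            omega
          have h4 := ih k (by omega) hi
          rw [dd_succ (by omega), ← hlen] at h4
          omega
      · -- the next stage is busy
        have hb2 : buf (st τ R0 l (k + 1) t) ≠ [] := fun h => hev ⟨hb, h⟩
        have hkl : k < l := by
          by_contra hcon
          have : k = l := by omega
          subst this
          rw [st_sink] at hb2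
          exact hb2 rfl
        obtain ⟨o', g1, g2, g3⟩ := inv_all (τ := τ) (R0 := R0) (l := l) t (k + 1) hkl
        have ho' : o' ≠ [] := by
          rw [g1] at hb2
          exact hb2
        have hlen := congrArg List.length g2
        rw [List.length_append, List.length_take, min_eq_left g3] at hlen
        have hpos := List.length_pos_of_ne_nil ho'
        have e : (prd τ R0 l (k + 1) t) = τ.run τ.init ((row τ R0 k).take (em τ R0 l k t)) := rfl
        rw [e] at hlen
        have hc : (τ.run τ.init ((row τ R0 k).take (em τ R0 l k t))).length ≤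
            (row τ R0 (k + 1)).length := (run_take_prefix k _).length_le
        have h4 := ih (k + 1) hkl (by omega)
        have h5 := dd_lt (τ := τ) (R0 := R0) (l := l) hne (k := k + 1)
          (m := em τ R0 l (k + 1) t)
          (m' := (τ.run τ.init ((row τ R0 k).take (em τ R0 l k t))).length) (by omega) hc
        rw [← dd_succ hkl] at h5
        omega

end speed

end pipe

/-! ### the buffers are short -/

lemma rule_buf {S : Type} {τ : Dgsm S} {L : ℕ} (ho : ∀ q x, (τ.out q x).length ≤ L)
    (x y z : Cell τ) (hy : (buf y).length ≤ L) : (buf (rule τ x y z)).length ≤ L := by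
  rcases y with _ | ⟨q, o⟩
  · exact Nat.zero_le _
  · cases o with
    | nil =>
      cases hx : buf x with
      | nil => rw [rule_nil_nil hx]; exact Nat.zero_le _
      | cons s w => rw [rule_nil_cons hx]; exact ho _ _
    | cons s o =>
      have hy' : o.length + 1 ≤ L := hy
      by_cases hz : buf z = []
      · rw [rule_cons_nil hz]
        change o.length ≤ L
        omega
      · rw [rule_cons_cons hz]
        exact hy

lemma buf_le {S : Type} (τ : Dgsm S) (R0 : List S) (l L : ℕ) (h0 : R0.length ≤ L)
    (ho : ∀ q x, (τ.out q x).length ≤ L) (t : ℕ) : ∀ i, (buf (cf τ R0 l t i)).length ≤ L := by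
  induction t with
  | zero =>
    intro i
    rw [cf]
    split_ifs
    · exact h0
    · exact Nat.zero_le _
    · exact Nat.zero_le _
  | succ t ih =>
    intro i
    rw [cf]
    exact rule_buf ho _ _ _ (ih i)

/-- **PIPE** -/
theorem pipe : SPipe := by
  intro S τ R0 l hne
  refine ⟨fun T hT => ?_, fun L h0 ho t i => buf_le τ R0 l L h0 ho t i⟩
  rw [heads]
  change (row τ R0 l).take _ = row τ R0 l
  refine List.take_of_length_le ?_
  by_contra hcon
  have h1 := speed (τ := τ) (R0 := R0) (l := l) hne T l le_rfl (by omega)
  rw [dd_last (by omega)] at h1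
  have h2 : (row τ R0 l).length = (τ.map^[l] R0).length := rfl
  omega

end Pool.Agent.TH805.RM
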